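import Pool.Agent.L7h38.PG.Mul

/-!
# Project PG (helper34, MP_19b7cf_lc), part BIS
-/

set_option autoImplicit false

namespace Pool.Agent.L7h38.PG

open CategoryTheory Opposite Limits MonoidalCategory
open Pool.Agent.L7h74.HS (pw pr prn cns)
open Pool.Agent.L7h75.HS (cns_prn cns_last)
open Pool.Agent.L7h34.PG

theorem rn_rn {S S' S'' : Type} (s' : S') (s'' : S'') :
    (rn s' : XX S ⟶ XX S') ≫ rn s'' = rn s'' := by
  ext m z
  change El.ren s'' (El.ren s' (z : El (Bg m) S)) = El.ren s'' (z : El (Bg m) S)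
  rcases z with _ | _ | ⟨(_ | _ | _), s⟩ <;> rfl

theorem exists_rn (hC : S_CON) {S : Type} (t₀ : S) {W : SSet.{0}} (hW : W.IsConnected)
    (b : W ⟶ XX S) : ∃ t : S, b = b ≫ rn t := by
  obtain ⟨δ, h⟩ := hC S W hW b
  rcases δ with _ | _ | ⟨a, s⟩
  · refine ⟨t₀, ap_ext fun m z => ?_⟩
    have h3 : El.map (fun _ => ()) (ap b z) = _ := h m z
    rw [ap_rn]
    generalize ap b z = w at h3 ⊢
    rcases w with _ | _ | ⟨a', s'⟩
    · rfl
    · rfl
    · simp [El.map] at h3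
  · refine ⟨t₀, ap_ext fun m z => ?_⟩
    have h3 : El.map (fun _ => ()) (ap b z) = _ := h m z
    rw [ap_rn]
    generalize ap b z = w at h3 ⊢
    rcases w with _ | _ | ⟨a', s'⟩
    · rfl
    · rfl
    · simp [El.map] at h3
  · refine ⟨s, ap_ext fun m z => ?_⟩
    have h3 : El.map (fun _ => ()) (ap b z) = _ := h m z
    rw [ap_rn]
    generalize ap b z = w at h3 ⊢
    rcases w with _ | _ | ⟨a', s'⟩
    · rfl
    · rfl
    · simp only [El.map, El.ix.injEq] at h3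
      rw [h3.2]
      rfl

variable {S S' : Type} {σ : Equiv.Perm S} {σ' : Equiv.Perm S'}

theorem Dst_symm {r n : ℕ} {s : Fin n → S} {s' : Fin n → S'} (h : Dst σ σ' r s s') :
    Dst σ' σ r s' s := fun i j d hd => (h i j d hd).symm

theorem Dst_mono {r r' n : ℕ} {s : Fin n → S} {s' : Fin n → S'} (h : Dst σ σ' r s s')
    (hr : r' ≤ r) : Dst σ σ' r' s s' := fun i j d hd => h i j d (hd.trans (by exact_mod_cast hr))

theorem Rel_symm {r n : ℕ} {Z : SSet.{0}} {a : Z ⟶ pw (XX S) n} {a' : Z ⟶ pw (XX S') n}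
    {s : Fin n → S} {s' : Fin n → S'} (h : Rel σ σ' r a a' s s') : Rel σ' σ r a' a s' s := by
  obtain ⟨h1, h2, h3⟩ := h
  refine ⟨fun i => ?_, fun i => ?_, Dst_symm h3⟩
  · rw [h2 i, Category.assoc (a ≫ pr _ i), rn_rn]
  · rw [h2 i, Category.assoc (a ≫ pr _ i), rn_rn]
    exact h1 i

theorem Rel_mono {r r' n : ℕ} {Z : SSet.{0}} {a : Z ⟶ pw (XX S) n} {a' : Z ⟶ pw (XX S') n}
    {s : Fin n → S} {s' : Fin n → S'} (h : Rel σ σ' r a a' s s') (hr : r' ≤ r) :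
    Rel σ σ' r' a a' s s' := ⟨h.1, h.2.1, Dst_mono h.2.2 hr⟩

theorem Rel_comp {r n : ℕ} {Z W : SSet.{0}} {a : Z ⟶ pw (XX S) n} {a' : Z ⟶ pw (XX S') n}
    {s : Fin n → S} {s' : Fin n → S'} (h : Rel σ σ' r a a' s s') (f : W ⟶ Z) :
    Rel σ σ' r (f ≫ a) (f ≫ a') s s' := by
  obtain ⟨h1, h2, h3⟩ := h
  refine ⟨fun i => ?_, fun i => ?_, h3⟩
  · rw [Category.assoc f a, Category.assoc f, ← h1 i]
  · rw [Category.assoc f a', Category.assoc f a, Category.assoc f, ← h2 i]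

theorem cns_cast {X Z : SSet.{0}} {n : ℕ} (a : Z ⟶ pw X n) (b : Z ⟶ X) (i : Fin n) :
    cns a b ≫ pr X i.castSucc = a ≫ pr X i := by
  ext m z
  exact Fin.snoc_castSucc (α := fun _ => X.obj m) _ _ i

theorem Rel_cns {r r' n : ℕ} {Z : SSet.{0}} {a : Z ⟶ pw (XX S) n} {a' : Z ⟶ pw (XX S') n}
    {s : Fin n → S} {s' : Fin n → S'} (h : Rel σ σ' r' a a' s s') (b : Z ⟶ XX S) (t : S) (t' : S')
    (hb : b = b ≫ rn t)
    (hD : Dst σ σ' r (Fin.snoc (α := fun _ => S) s t) (Fin.snoc (α := fun _ => S') s' t')) :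
    Rel σ σ' r (cns a b) (cns a' (b ≫ rn t')) (Fin.snoc (α := fun _ => S) s t)
      (Fin.snoc (α := fun _ => S') s' t') := by
  obtain ⟨h1, h2, -⟩ := h
  refine ⟨fun i => ?_, fun i => ?_, hD⟩
  · refine Fin.lastCases ?_ (fun i => ?_) i
    · rw [cns_last, Fin.snoc_last]
      exact hb
    · rw [cns_cast, Fin.snoc_castSucc]
      exact h1 i
  · refine Fin.lastCases ?_ (fun i => ?_) i
    · rw [cns_last, cns_last, Fin.snoc_last]
    · rw [cns_cast, cns_cast, Fin.snoc_castSucc]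
      exact h2 i

theorem Big_mono {N r r' : ℕ} (h : Big N r) (hr : r' ≤ r) : Big N r' := by
  rcases h with h | h
  · exact Or.inl h
  · exact Or.inr (by omega)

theorem s_BIS (hC : S_CON) (hT : S_TERM) (hH : S_HOM) (hE : S_EXT) : S_BIS := by
  intro n φ
  induction φ with
  | top =>
    intro N N' _ _ Z _ a a' s s' _ _
    trivial
  | bot =>
    intro N N' _ _ Z _ a a' s s' _ h
    exact h
  | eq t₁ t₂ =>
    intro N N' _ _ Z hZ a a' s s' hR h
    obtain ⟨i₁, d₁, hd₁, e₁, e₁'⟩ := hT _ _ _ _ Z hZ _ _ a a' s s' hR t₁ (Nat.le_add_right _ _)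
    obtain ⟨i₂, d₂, hd₂, e₂, e₂'⟩ := hT _ _ _ _ Z hZ _ _ a a' s s' hR t₂ (Nat.le_add_left _ _)
    have h3 := hH _ _ Z hZ _ _ _ _ (((cyc N') ^ d₁) (s' i₁)) (((cyc N') ^ d₂) (s' i₂)) e₁ e₂
      (by
        intro hpq
        have h4 := (dst_iff hR.2.2 i₁ i₂ d₁ d₂ 0 (by
          change _ ≤ ((t₁.sz + t₂.sz : ℕ) : ℤ)
          rw [abs_le] at hd₁ hd₂ ⊢
          push_cast
          omega)).1 (by
            rw [zpow_zero]
            exact hpq.symm)
        rw [zpow_zero] at h4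
        exact h4.symm) h
    rw [← e₁', ← e₂'] at h3
    exact h3
  | and φ ψ ih₁ ih₂ =>
    intro N N' hN hN' Z hZ a a' s s' hR h
    have m1 : rk φ ≤ rk (Form.and φ ψ) := le_max_left _ _
    have m2 : rk ψ ≤ rk (Form.and φ ψ) := le_max_right _ _
    exact ⟨ih₁ N N' (Big_mono hN m1) (Big_mono hN' m1) Z hZ a a' s s' (Rel_mono hR m1) h.1,
      ih₂ N N' (Big_mono hN m2) (Big_mono hN' m2) Z hZ a a' s s' (Rel_mono hR m2) h.2⟩
  | or φ ψ ih₁ ih₂ =>
    intro N N' hN hN' Z hZ a a' s s' hR h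
    have m1 : rk φ ≤ rk (Form.or φ ψ) := le_max_left _ _
    have m2 : rk ψ ≤ rk (Form.or φ ψ) := le_max_right _ _
    rcases h with h | h
    · exact Or.inl (ih₁ N N' (Big_mono hN m1) (Big_mono hN' m1) Z hZ a a' s s' (Rel_mono hR m1) h)
    · exact Or.inr (ih₂ N N' (Big_mono hN m2) (Big_mono hN' m2) Z hZ a a' s s' (Rel_mono hR m2) h)
  | imp φ ψ ih₁ ih₂ =>
    intro N N' hN hN' Z hZ a a' s s' hR h W hW f hφ
    have m1 : rk φ ≤ rk (Form.imp φ ψ) := le_max_left _ _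
    have m2 : rk ψ ≤ rk (Form.imp φ ψ) := le_max_right _ _
    have h1 := ih₁ N' N (Big_mono hN' m1) (Big_mono hN m1) W hW (f ≫ a') (f ≫ a) s' s
      (Rel_mono (Rel_symm (Rel_comp hR f)) m1) hφ
    exact ih₂ N N' (Big_mono hN m2) (Big_mono hN' m2) W hW (f ≫ a) (f ≫ a') s s'
      (Rel_mono (Rel_comp hR f) m2) (h W hW f h1)
  | all φ ih =>
    intro N N' hN hN' Z hZ a a' s s' hR h W hW f b'
    have m1 : rk φ ≤ rk (Form.all φ) := by
      change rk φ ≤ 2 * rk φ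
      omega
    obtain ⟨t', ht'⟩ := exists_rn hC ((0 : ZMod N'), 0) hW b'
    obtain ⟨t, hD⟩ := hE N' N (rk φ) (Big_mono hN' m1) (Big_mono hN m1) _ s' s
      (Dst_symm hR.2.2) t'
    have hR' := Rel_symm (Rel_cns (Rel_symm (Rel_comp hR f)) b' t' t ht' hD)
    exact ih N N' (Big_mono hN m1) (Big_mono hN' m1) W hW _ _ _ _ hR' (h W hW f (b' ≫ rn t))
  | ex φ ih =>
    intro N N' hN hN' Z hZ a a' s s' hR h
    obtain ⟨b, hb⟩ := h
    have m1 : rk φ ≤ rk (Form.ex φ) := by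
      change rk φ ≤ 2 * rk φ
      omega
    obtain ⟨t, ht⟩ := exists_rn hC ((0 : ZMod N), 0) hZ b
    obtain ⟨t', hD⟩ := hE N N' (rk φ) (Big_mono hN m1) (Big_mono hN' m1) _ s s' hR.2.2 t
    exact ⟨b ≫ rn t', ih N N' (Big_mono hN m1) (Big_mono hN' m1) Z hZ _ _ _ _
      (Rel_cns hR b t t' ht hD) hb⟩

end Pool.Agent.L7h38.PG
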