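import Pool.Agent.L7h38.PG.Shp

/-!
# Project PG (helper34, MP_19b7cf_lc), parts MUL, TERM
-/

set_option autoImplicit false

namespace Pool.Agent.L7h38.PG

open CategoryTheory Opposite Limits MonoidalCategory
open Pool.Agent.L7h74.HS (pw pr prn cns)
open Pool.Agent.L7h34.PG

/-- the alternative for a product: `some b` if the index is shifted by `b` from the first factor,
`none` if the index is that of the second factor -/
def alt {B S : Type} : El B S → El B S → Option Bool
  | .z, .ix (.u _) _ => none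
  | .ix (.u _) _, .ix (.m k _) _ => some (sh k)
  | .ix (.y _ _) _, .ix (.m k _) _ => some (sh k)
  | _, _ => some false

theorem alt_map {B B' S : Type} (g : B → B') (x y : El B S) :
    alt (El.map g x) (El.map g y) = alt x y := by
  rcases x with _ | _ | ⟨(_ | _ | _), s⟩ <;> rcases y with _ | _ | ⟨(_ | _ | _), s'⟩ <;> rfl

theorem mul_alt {B S S' : Type} (o : B) (P : Kd → ZMod 2 → B → B) (σ : Equiv.Perm S)
    (σ' : Equiv.Perm S') (x y : El B S) (p q : S) (p' q' : S') (hx : El.ren p x = x)
    (hy : El.ren q y = y) (h : ∀ b : Bool, q = sft σ b p ↔ q' = sft σ' b p') :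
    match alt x y with
    | some b => mul o P σ x y = El.ren (sft σ b p) (mul o P σ x y) ∧
        mul o P σ' (El.ren p' x) (El.ren q' y) = El.ren (sft σ' b p') (mul o P σ x y)
    | none => mul o P σ x y = El.ren q (mul o P σ x y) ∧
        mul o P σ' (El.ren p' x) (El.ren q' y) = El.ren q' (mul o P σ x y) := by
  rcases x with _ | _ | ⟨(_ | _ | _), s⟩ <;> rcases y with _ | _ | ⟨(_ | _ | _), s'⟩ <;>
    (try exact ⟨rfl, rfl⟩)
  · -- z, u
    rename_i l
    simp only [El.ren, El.ix.injEq, true_and] at hy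
    subst hy
    exact ⟨rfl, rfl⟩
  · -- u, m
    rename_i l k e
    simp only [El.ren, El.ix.injEq, true_and] at hx hy
    subst hx hy
    simp only [alt, mul, tbl, El.ren]
    by_cases h1 : src k = l
    · simp only [h1, if_true]
      by_cases h2 : q = sft σ false p
      · have h3 := (h false).1 h2
        simp only [h2, h3, if_true]
        exact ⟨by first | trivial | rfl, by first | trivial | rfl⟩
      · have h3 : ¬ q' = sft σ' false p' := fun t => h2 ((h false).2 t)
        simp only [h2, h3, if_false]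
        exact ⟨by first | trivial | rfl, by first | trivial | rfl⟩
    · simp only [h1, if_false]
      exact ⟨by first | trivial | rfl, by first | trivial | rfl⟩
  · -- y, m
    rename_i l c k e
    simp only [El.ren, El.ix.injEq, true_and] at hx hy
    subst hx hy
    simp only [alt, mul, tbl, El.ren]
    by_cases h1 : src k = l
    · simp only [h1, if_true]
      by_cases h2 : q = sft σ false p
      · have h3 := (h false).1 h2
        simp only [h2, h3, if_true]
        exact ⟨by first | trivial | rfl, by first | trivial | rfl⟩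
      · have h3 : ¬ q' = sft σ' false p' := fun t => h2 ((h false).2 t)
        simp only [h2, h3, if_false]
        exact ⟨by first | trivial | rfl, by first | trivial | rfl⟩
    · simp only [h1, if_false]
      exact ⟨by first | trivial | rfl, by first | trivial | rfl⟩
  · -- m, m
    rename_i k e k' e'
    simp only [El.ren, El.ix.injEq, true_and] at hx hy
    subst hx hy
    simp only [alt, mul, tbl, El.ren]
    cases h1 : kc k k' with
    | none =>
      simp only [Option.map_none]
      exact ⟨by first | trivial | rfl, by first | trivial | rfl⟩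
    | some k'' =>
      simp only [Option.map_some]
      by_cases h2 : q = sft σ (sh k) p
      · have h3 := (h (sh k)).1 h2
        simp only [h2, h3, if_true]
        exact ⟨by first | trivial | rfl, by first | trivial | rfl⟩
      · have h3 : ¬ q' = sft σ' (sh k) p' := fun t => h2 ((h (sh k)).2 t)
        simp only [h2, h3, if_false]
        exact ⟨by first | trivial | rfl, by first | trivial | rfl⟩

theorem ap_mm {S : Type} (σ : Equiv.Perm S) {Z : SSet.{0}} (f g : Z ⟶ XX S)
    {m : SimplexCategoryᵒᵖ} (z : Z.obj m) :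
    ap (pair f g ≫ mm σ) z = mul (Bg.one m) (Bg.P m) σ (ap f z) (ap g z) := rfl

theorem s_MUL (hC : S_CON) : S_MUL := by
  intro S S' σ σ' Z hZ f g p q p' q' hf hg h
  obtain ⟨δ₁, h1⟩ := hC S Z hZ f
  obtain ⟨δ₂, h2⟩ := hC S Z hZ g
  have hal : ∀ (m : SimplexCategoryᵒᵖ) (z : Z.obj m), alt (ap f z) (ap g z) = alt δ₁ δ₂ := by
    intro m z
    rw [← alt_map (fun _ => ())]
    have e1 : El.map (fun _ => ()) (ap f z) = δ₁ := h1 m z
    have e2 : El.map (fun _ => ()) (ap g z) = δ₂ := h2 m z
    rw [e1, e2]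
  have hpt : ∀ (m : SimplexCategoryᵒᵖ) (z : Z.obj m), _ := fun m z =>
    mul_alt (Bg.one m) (Bg.P m) σ σ' (ap f z) (ap g z) p q p' q'
      (congrArg (fun k : Z ⟶ XX S => ap k z) hf).symm
      (congrArg (fun k : Z ⟶ XX S => ap k z) hg).symm h
  cases hd : alt δ₁ δ₂ with
  | some b =>
    left
    refine ⟨b, ap_ext fun m z => ?_, ap_ext fun m z => ?_⟩
    · have h3 := hpt m z
      rw [hal, hd] at h3
      exact h3.1
    · have h3 := hpt m z
      rw [hal, hd] at h3
      exact h3.2
  | none =>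
    right
    refine ⟨ap_ext fun m z => ?_, ap_ext fun m z => ?_⟩
    · have h3 := hpt m z
      rw [hal, hd] at h3
      exact h3.1
    · have h3 := hpt m z
      rw [hal, hd] at h3
      exact h3.2

/-! ### TERM -/

theorem sft_zpow {S : Type} (σ : Equiv.Perm S) (b : Bool) (s : S) :
    sft σ b s = (σ ^ (if b then (1 : ℤ) else 0)) s := by
  cases b
  · rfl
  · simp [sft]

theorem comp_pair {W Z X Y : SSet.{0}} (a : W ⟶ Z) (f : Z ⟶ X) (g : Z ⟶ Y) :
    a ≫ pair f g = pair (a ≫ f) (a ≫ g) := by
  ext m z <;> rfl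

theorem dst_iff {S S' : Type} {σ : Equiv.Perm S} {σ' : Equiv.Perm S'} {r n : ℕ} {s : Fin n → S}
    {s' : Fin n → S'} (h : Dst σ σ' r s s') (i j : Fin n) (d e k : ℤ) (hk : |k + d - e| ≤ r) :
    (σ ^ e) (s j) = (σ ^ k) ((σ ^ d) (s i)) ↔ (σ' ^ e) (s' j) = (σ' ^ k) ((σ' ^ d) (s' i)) := by
  have key : ∀ {T : Type} (τ : Equiv.Perm T) (x y : T),
      (τ ^ e) y = (τ ^ k) ((τ ^ d) x) ↔ y = (τ ^ (k + d - e)) x := by
    intro T τ x y
    rw [← Equiv.Perm.mul_apply, ← zpow_add, sub_eq_neg_add, zpow_add τ (-e), Equiv.Perm.mul_apply,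
      zpow_neg, Equiv.Perm.eq_inv_iff_eq]
  rw [key, key]
  exact h i j _ hk

theorem s_TERM (hM : S_MUL) : S_TERM := by
  intro S S' σ σ' Z hZ r n a a' s s' hR t
  obtain ⟨hR1, hR2, hD⟩ := hR
  induction t with
  | var i =>
    intro _
    refine ⟨i, 0, by simp, ?_, ?_⟩
    · rw [zpow_zero]
      exact hR1 i
    · rw [zpow_zero]
      exact hR2 i
  | mul t₁ t₂ ih₁ ih₂ =>
    intro ht
    have hsz : (Term.mul t₁ t₂).sz = t₁.sz + t₂.sz + 1 := rfl
    rw [hsz] at ht
    obtain ⟨i₁, d₁, hd₁, e₁, e₁'⟩ := ih₁ (by omega)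
    obtain ⟨i₂, d₂, hd₂, e₂, e₂'⟩ := ih₂ (by omega)
    have hh : ∀ b : Bool, (σ ^ d₂) (s i₂) = sft σ b ((σ ^ d₁) (s i₁)) ↔
        (σ' ^ d₂) (s' i₂) = sft σ' b ((σ' ^ d₁) (s' i₁)) := by
      intro b
      rw [sft_zpow, sft_zpow]
      apply dst_iff hD
      rw [abs_le] at hd₁ hd₂ ⊢
      cases b
      · simp only [Bool.false_eq_true, if_false]
        omega
      · simp only [if_true]
        omega
    have hc : a ≫ tm (mm σ) (Term.mul t₁ t₂) =
        pair (a ≫ tm (mm σ) t₁) (a ≫ tm (mm σ) t₂) ≫ mm σ := by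
      rw [← comp_pair, Category.assoc]
      rfl
    have hc' : a' ≫ tm (mm σ') (Term.mul t₁ t₂) =
        pair ((a ≫ tm (mm σ) t₁) ≫ rn ((σ' ^ d₁) (s' i₁)))
          ((a ≫ tm (mm σ) t₂) ≫ rn ((σ' ^ d₂) (s' i₂))) ≫ mm σ' := by
      rw [← e₁', ← e₂', ← comp_pair, Category.assoc]
      rfl
    rcases hM S S' σ σ' Z hZ _ _ _ _ _ _ e₁ e₂ hh with ⟨b, h1, h2⟩ | ⟨h1, h2⟩
    · refine ⟨i₁, (if b then (1 : ℤ) else 0) + d₁, ?_, ?_, ?_⟩
      · rw [hsz, abs_le]
        rw [abs_le] at hd₁
        cases b
        · simp only [Bool.false_eq_true, if_false]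
          push_cast
          omega
        · simp only [if_true]
          push_cast
          omega
      · rw [hc, zpow_add, Equiv.Perm.mul_apply, ← sft_zpow]
        exact h1
      · rw [hc, hc', zpow_add, Equiv.Perm.mul_apply, ← sft_zpow]
        exact h2
    · refine ⟨i₂, d₂, ?_, ?_, ?_⟩
      · rw [hsz]
        push_cast
        omega
      · rw [hc]
        exact h1
      · rw [hc, hc']
        exact h2

end Pool.Agent.L7h38.PG
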