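import Pool.Agent.L7h34.PG.Stm

/-!
# Project PG (helper34, MP_19b7cf_lc), parts CON, HOM: shapes
-/

set_option autoImplicit false

namespace Pool.Agent.L7h38.PG

open CategoryTheory Opposite Limits MonoidalCategory Simplicial
open Pool.Agent.L7h74.HS (pw pr prn cns)
open Pool.Agent.L7h75.HS (vt cl cl_map cl_zero)
open Pool.Agent.L7h34.PG

theorem map_unit {B B' S : Type} (g : B → B') (x : El B S) :
    El.map (fun _ => ()) (El.map g x) = El.map (fun _ => ()) x := by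
  rcases x with _ | _ | ⟨(_ | _ | _), s⟩ <;> rfl

/-- the value at a simplex -/
def ap {S : Type} {Z : SSet.{0}} (f : Z ⟶ XX S) {m : SimplexCategoryᵒᵖ} (z : Z.obj m) :
    El (Bg m) S := f.app m z

theorem ap_rn {S S' : Type} (s' : S') {Z : SSet.{0}} (f : Z ⟶ XX S) {m : SimplexCategoryᵒᵖ}
    (z : Z.obj m) : ap (f ≫ rn s') z = El.ren s' (ap f z) := rfl

theorem ap_ext {S : Type} {Z : SSet.{0}} {f g : Z ⟶ XX S}
    (h : ∀ (m : SimplexCategoryᵒᵖ) (z : Z.obj m), ap f z = ap g z) : f = g := by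
  ext m z
  exact h m z

/-- the shape of a simplex -/
def shp {S : Type} {Z : SSet.{0}} (f : Z ⟶ XX S) {m : SimplexCategoryᵒᵖ} (z : Z.obj m) : El Unit S :=
  El.map (fun _ => ()) (ap f z)

theorem shp_map {S : Type} {Z : SSet.{0}} (f : Z ⟶ XX S) {m m' : SimplexCategoryᵒᵖ} (θ : m ⟶ m')
    (z : Z.obj m) : shp f (Z.map θ z) = shp f z := by
  have h1 : ap f (Z.map θ z) = El.map (Bg.res θ) (ap f z) :=
    ConcreteCategory.congr_hom (f.naturality θ) z
  unfold shp
  rw [h1]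
  exact map_unit _ _

theorem s_CON : S_CON := by
  intro S Z hZ f
  have hS : ∃ T : SSet.π₀ Z → El Unit S, ∀ x : Z _⦋0⦌, T (SSet.π₀.mk x) = shp f (m := op ⦋0⦌) x := by
    refine ⟨SSet.π₀.lift (fun x => shp f (m := op ⦋0⦌) x) ?_, fun x => rfl⟩
    intro x y e
    have h1 : shp f (Z.δ 1 e.edge) = shp f (m := op ⦋1⦌) e.edge := shp_map f _ _
    have h2 : shp f (Z.δ 0 e.edge) = shp f (m := op ⦋1⦌) e.edge := shp_map f _ _
    rw [e.src_eq] at h1
    rw [e.tgt_eq] at h2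
    exact h1.trans h2.symm
  obtain ⟨T, hT⟩ := hS
  have hs : ∀ (m : SimplexCategoryᵒᵖ) (z : Z.obj m), shp f z = T (cl z) := by
    intro m z
    unfold cl
    rw [hT]
    exact (shp_map f _ z).symm
  have hsub : Subsingleton (SSet.π₀ Z) := ((SSet.isConnected_iff Z).1 hZ).1
  obtain ⟨x₀⟩ : Nonempty (SSet.π₀ Z) := inferInstance
  refine ⟨T x₀, fun m z => ?_⟩
  change shp f z = T x₀
  rw [hs, Subsingleton.elim (cl z) x₀]

/-! ### HOM -/

theorem app_comp {X Y W : SSet.{0}} (f : X ⟶ Y) (g : Y ⟶ W) {m : SimplexCategoryᵒᵖ} (z : X.obj m) :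
    (f ≫ g).app m z = g.app m (f.app m z) := rfl

theorem rn_app {S S' : Type} (s' : S') {m : SimplexCategoryᵒᵖ} (x : El (Bg m) S) :
    (rn s' : XX S ⟶ XX S').app m x = El.ren s' x := rfl

theorem ren_map {B B' S S' : Type} (g : B → B') (s' : S') (x : El B S) :
    El.map g (El.ren s' x) = El.ren s' (El.map g x) := by
  rcases x with _ | _ | ⟨(_ | _ | _), s⟩ <;> rfl

theorem homp_shp {S : Type} {Z : SSet.{0}} {f g : Z ⟶ XX S} (H : SSet.Homotopy f g)
    (x : Z _⦋0⦌) : shp f (m := op ⦋0⦌) x = shp g (m := op ⦋0⦌) x := by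
  have h0 := ConcreteCategory.congr_hom (H.toSimplicialObjectHomotopy.h_zero_comp_δ_zero 0) x
  have h1 := ConcreteCategory.congr_hom (H.toSimplicialObjectHomotopy.h_last_comp_δ_last 0) x
  have e0 : ap g (m := op ⦋0⦌) x = El.map (Bg.res (SimplexCategory.δ (0 : Fin 2)).op)
      (H.toSimplicialObjectHomotopy.h (0 : Fin 1) x) := h0.symm
  have e1 : ap f (m := op ⦋0⦌) x = El.map (Bg.res (SimplexCategory.δ (1 : Fin 2)).op)
      (H.toSimplicialObjectHomotopy.h (0 : Fin 1) x) := h1.symm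
  unfold shp
  rw [e0, e1]
  exact (map_unit _ _).trans (map_unit _ _).symm

theorem ren_shp {S : Type} {Z : SSet.{0}} {f : Z ⟶ XX S} {p : S} (hf : f = f ≫ rn p)
    {m : SimplexCategoryᵒᵖ} (z : Z.obj m) : El.ren p (shp f z) = shp f z := by
  unfold shp
  rw [← ren_map]
  have e2 : ap f z = El.ren p (ap f z) := congrArg (fun k : Z ⟶ XX S => ap k z) hf
  rw [← e2]

/-- postcomposition of a homotopy -/
theorem hpost {X Y W : SSet.{0}} {f g : X ⟶ Y} (H : SSet.Homotopy f g) (k : Y ⟶ W) :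
    Nonempty (SSet.Homotopy (f ≫ k) (g ≫ k)) := by
  refine ⟨Pool.Agent.L7h34.HS.mkH (H.h ≫ k) ?_ ?_⟩
  · rw [← Category.assoc]
    exact congrArg (· ≫ k) H.h₀
  · rw [← Category.assoc]
    exact congrArg (· ≫ k) H.h₁

theorem s_HOM (hC : S_CON) : S_HOM := by
  intro S S' Z hZ f g p q p' q' hf hg hpq hH
  obtain ⟨H⟩ := hH
  by_cases hp : p = q
  · rw [← hpq hp]
    exact hpost H _
  · obtain ⟨δ₁, h1⟩ := hC S Z hZ f
    obtain ⟨δ₂, h2⟩ := hC S Z hZ g
    have hsub := ((SSet.isConnected_iff Z).1 hZ).1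
    obtain ⟨x₀⟩ : Nonempty (SSet.π₀ Z) := inferInstance
    obtain ⟨x, rfl⟩ := SSet.π₀.mk_surjective x₀
    have h12 : δ₁ = δ₂ := by
      have e1 : shp f (m := op ⦋0⦌) x = δ₁ := h1 _ x
      have e2 : shp g (m := op ⦋0⦌) x = δ₂ := h2 _ x
      rw [← e1, ← e2]
      exact homp_shp H x
    -- the shape has no index
    have r1 : El.ren p δ₁ = δ₁ := by
      have e1 : shp f (m := op ⦋0⦌) x = δ₁ := h1 _ x
      rw [← e1]
      exact ren_shp hf x
    have r2 : El.ren q δ₂ = δ₂ := by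
      have e1 : shp g (m := op ⦋0⦌) x = δ₂ := h2 _ x
      rw [← e1]
      exact ren_shp hg x
    have hg' : g ≫ rn q' = g ≫ (rn p' : XX S ⟶ XX S') := by
      refine ap_ext fun m z => ?_
      rw [ap_rn, ap_rn]
      have h3 : El.map (fun _ => ()) (ap g z) = δ₂ := h2 m z
      generalize ap g z = w at h3 ⊢
      rcases w with _ | _ | ⟨a, s⟩
      · rfl
      · rfl
      · exfalso
        apply hp
        rw [← h12] at h3 r2
        rw [← h3] at r1 r2
        simp only [El.map, El.ren, El.ix.injEq, true_and] at r1 r2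
        exact r1.trans r2.symm
    rw [hg']
    exact hpost H _

end Pool.Agent.L7h38.PG
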